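import Pool.Agent.Helper51.PF.All

namespace Pool.Agent.Results.MP_c27e85_nt.PerturbedFactorials

open Pool.Agent.Helper51.PF

/-- Limit law of the least index for perturbed factorials. -/
theorem result :
    ∃ E : Set ℕ, (∃ C : ℝ, ∀ x : ℝ, 2 ≤ x →
        ((E ∩ {p : ℕ | (p : ℝ) ≤ x}).ncard : ℝ) ≤ C * x / (Real.log x) ^ 4) ∧
      ∀ ε > (0 : ℝ), ∃ p0 : ℕ, ∀ p : ℕ, p.Prime → p0 ≤ p → ∀ s : ℕ, 1 ≤ s →
        (s : ℝ) * (Real.log p) ^ 2 ≤ Real.sqrt p → (s ≤ 2 ∨ p ∉ E) → ∀ n0 ≤ p - 2,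
        |pr (fun σ : Equiv.Perm (moved p s) => NoHit p s σ n0) - Lam p n0| ≤ ε :=
  allPF

end Pool.Agent.Results.MP_c27e85_nt.PerturbedFactorials
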